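import Pool.Agent.Q71.DN.Defs

set_option autoImplicit false

/-!
# Project OS (row MP_173de9_an): star discrepancy of Owen scrambled nets, definitions, statements

`N = b^m` points with index set `Fin (b^m)`, `D + 1` coordinates `j : Fin (D+1)` (`D ≥ 1`).
-/

namespace Pool.Agent.Q71.OS

open Finset Pool.Agent.Q71.DN

/-- `g μ j i` is the `i`-th digit of coordinate `j` of the point `μ`. -/
abbrev Dg (b m D : ℕ) : Type := Fin (b ^ m) → Fin (D + 1) → ℕ → ℕ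

open Classical in
/-- The number of points that agree with the point `p` in the first `a j` digits of coordinate
`j`, for all `j`. -/
noncomputable def kp {b m D : ℕ} (g : Dg b m D) (p : Fin (b ^ m)) (a : Fin (D + 1) → ℕ) : ℕ :=
  (univ.filter fun μ : Fin (b ^ m) => ∀ j, ∀ i < a j, g μ j i = g p j i).card

open Classical in
/-- `(t,m,D+1)`-nets in base `b`, in terms of the digits. -/
def Net (b t m D : ℕ) (g : Dg b m D) : Prop :=
  (∀ μ j i, g μ j i < b) ∧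
  ∀ (a : Fin (D + 1) → ℕ) (v : Fin (D + 1) → ℕ → ℕ), (∑ j, a j) + t ≤ m → (∀ j i, v j i < b) →
    (univ.filter fun μ : Fin (b ^ m) => ∀ j, ∀ i < a j, g μ j i = v j i).card =
      b ^ (m - ∑ j, a j)

/-- The number with the digits `h 0, …, h (u-1)`. -/
noncomputable def trg (b : ℕ) (h : ℕ → ℕ) (u : ℕ) : ℝ :=
  ∑ i ∈ range u, (h i : ℝ) / (b : ℝ) ^ (i + 1)

/-- The first `m` digits of the points `z` are given by `g` (the others are arbitrary). -/
def IsDg {b m D : ℕ} (g : Dg b m D) (z : Fin (b ^ m) → Fin (D + 1) → ℝ) : Prop :=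
  ∀ μ j, trg b (g μ j) m ≤ z μ j ∧ z μ j < trg b (g μ j) m + 1 / (b : ℝ) ^ m

open Classical in
/-- All half open boxes have unnormalised discrepancy at most `R`. -/
def BdN {b m D : ℕ} (z : Fin (b ^ m) → Fin (D + 1) → ℝ) (R : ℝ) : Prop :=
  ∀ Y X : Fin (D + 1) → ℝ, (∀ j, 0 ≤ Y j ∧ Y j ≤ X j ∧ X j ≤ 1) →
    |((univ.filter fun μ : Fin (b ^ m) => ∀ j, Y j ≤ z μ j ∧ z μ j < X j).card : ℝ) -
      (b : ℝ) ^ m * ∏ j, (X j - Y j)| ≤ R

/-- The digits of the point `p` have the block pattern (top digit in the even tiles, digit `0` in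
the odd tiles of length `k`) in the window `[l j, l j + k (2 L))` of each coordinate `j`. -/
def Pat {b m D : ℕ} (k L : ℕ) (l : Fin (D + 1) → ℕ) (g : Dg b m D) (p : Fin (b ^ m)) : Prop :=
  ∀ j i, l j ≤ i → i < l j + k * (2 * L) → g p j i = if Even ((i - l j) / k) then b - 1 else 0

/-- OS-1. Box identity for a point with the pattern. -/
def StmBox : Prop :=
  ∀ (b m D k L : ℕ) (g : Dg b m D) (z : Fin (b ^ m) → Fin (D + 1) → ℝ) (R : ℝ)
    (p : Fin (b ^ m)) (l : Fin (D + 1) → ℕ), 2 ≤ b → 1 ≤ k → 1 ≤ L → (∀ μ j i, g μ j i < b) →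
    IsDg g z → BdN z R → (∀ j, l j + k * (2 * L) ≤ m) → Pat k L l g p →
    |∑ n ∈ idx D (2 * L - 1), (-1 : ℝ) ^ (∑ j, n j) *
      ((kp g p (fun j => l j + k * n j) : ℝ) - (b : ℝ) ^ m / (b : ℝ) ^ (∑ j, (l j + k * n j)))|
      ≤ R

/-- OS-2. A net with one point with the pattern has a large discrepancy. -/
def StmPat : Prop :=
  ∀ (b m D t L : ℕ) (g : Dg b m D) (z : Fin (b ^ m) → Fin (D + 1) → ℝ) (R : ℝ)
    (p : Fin (b ^ m)) (l : Fin (D + 1) → ℕ), 2 ≤ b → 1 ≤ D → 1 ≤ L → Net b t m D g →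
    IsDg g z → BdN z R → (∀ j, l j + (t + 2) * (2 * L) ≤ m) →
    (∑ j, l j) + (t + 2) * (D * (2 * L - 1)) = m + 2 → Pat (t + 2) L l g p →
    (1 / 2 : ℝ) * (((2 * L - 1) / (2 * D) + 1 : ℕ) : ℝ) ^ D ≤ R

/-- OS-3. Counting functions that miss independent events. -/
def StmInd : Prop :=
  ∀ (κ Q : Type) [Fintype κ] [Fintype Q] (M r b : ℕ) (B : Fin M → Finset κ) (G : κ → Set Q),
    1 ≤ b → (∀ i i', i ≠ i' → Disjoint (B i) (B i')) → (∀ i, (B i).card ≤ r) →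
    (∀ n, Nat.card Q ≤ b * Nat.card (G n)) → Nonempty Q →
    (Nat.card {π : κ → Q // ∀ i, ∃ n ∈ B i, π n ∉ G n} : ℝ) ≤
      (1 - 1 / (b : ℝ) ^ r) ^ M * (Nat.card (κ → Q) : ℝ)

/-- OS-4. Many points with prescribed digits in a window of coordinate `0` and pairwise different
`h`-prefixes in every other coordinate. -/
def StmSel : Prop :=
  ∀ (b m D t l w h : ℕ) (g : Dg b m D) (pat : ℕ → ℕ), 2 ≤ b → 1 ≤ D → Net b t m D g →
    (∀ i, pat i < b) → l + w + t ≤ m → h + t ≤ m → w ≤ h →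
    ∃ A : Finset (Fin (b ^ m)), (∀ p ∈ A, ∀ i, l ≤ i → i < l + w → g p 0 i = pat i) ∧
      (∀ p ∈ A, ∀ p' ∈ A, p ≠ p' → ∀ j : Fin D, ∃ i < h, g p j.succ i ≠ g p' j.succ i) ∧
      b ^ (h - w) ≤ D * A.card

/-- Arrays of digits in `Fin b`. -/
abbrev Arr (b m D : ℕ) : Type := Fin (b ^ m) → Fin (D + 1) → Fin m → Fin b

/-- The digits as natural numbers (`0` from the `m`-th on). -/
def toDg {b m D : ℕ} (g : Arr b m D) : Dg b m D :=
  fun μ j i => if h : i < m then (g μ j ⟨i, h⟩ : ℕ) else 0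

/-- Nested (Owen) scramblings of the first `m` digits of `s` coordinates: a permutation of the
digits for each coordinate, each place `i < m` and each string of `i` digits. -/
abbrev Scr (b m s : ℕ) : Type :=
  Fin s → (i : Fin m) → (Fin (i : ℕ) → Fin b) → Equiv.Perm (Fin b)

/-- The scrambled array. -/
def scrAll {b m D : ℕ} (π : Scr b m (D + 1)) (g : Arr b m D) : Arr b m D :=
  fun μ j i => π j i (fun i' => g μ j (Fin.castLE i.2.le i')) (g μ j i)

/-- Scrambling of the coordinates `1, …, D` only. -/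
def scr1 {b m D : ℕ} (π : Scr b m D) (g : Arr b m D) : Arr b m D :=
  scrAll (Fin.cons (α := fun _ => (i : Fin m) → (Fin (i : ℕ) → Fin b) → Equiv.Perm (Fin b))
    (fun _ _ => Equiv.refl _) π) g

/-- OS-5. Scrambling keeps the net property. -/
def StmNetScr : Prop :=
  ∀ (b m D t : ℕ) (g : Arr b m D) (π : Scr b m (D + 1)), 1 ≤ b →
    Net b t m D (toDg g) → Net b t m D (toDg (scrAll π g))

/-- OS-6. The proportion of bad scramblings. -/
def StmProb : Prop :=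
  ∀ (b m D t L h l0 : ℕ) (g : Arr b m D), 2 ≤ b → 1 ≤ D → 1 ≤ L → Net b t m D (toDg g) →
    (t + 2) * (2 * L) ≤ h → h + (t + 2) * (2 * L) + t ≤ m → l0 + (t + 2) * (2 * L) + t ≤ m →
    l0 + D * h + (t + 2) * (D * (2 * L - 1)) = m + 2 →
    ∃ M : ℕ, b ^ (h - (t + 2) * (2 * L)) ≤ D * M ∧
      (Nat.card {π : Scr b m D // ∃ (z : Fin (b ^ m) → Fin (D + 1) → ℝ) (R : ℝ),
        IsDg (toDg (scr1 π g)) z ∧ BdN z R ∧
          R < (1 / 2 : ℝ) * (((2 * L - 1) / (2 * D) + 1 : ℕ) : ℝ) ^ D} : ℝ) ≤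
        (1 - 1 / (b : ℝ) ^ (D * ((t + 2) * (2 * L)))) ^ M * (Nat.card (Scr b m D) : ℝ)

/-- OS-7. The main estimate (coordinate `0` is not scrambled). -/
def StmScr : Prop :=
  ∀ D : ℕ, 1 ≤ D → ∃ c c' : ℝ, 0 < c ∧ 0 < c' ∧
    ∀ (b m t : ℕ) (g : Arr b m D), 2 ≤ b → Net b t m D (toDg g) →
      (Nat.card {π : Scr b m D // ∃ (z : Fin (b ^ m) → Fin (D + 1) → ℝ) (R : ℝ),
        IsDg (toDg (scr1 π g)) z ∧ BdN z R ∧ R < c * ((m : ℝ) / ((t : ℝ) + 1)) ^ D} : ℝ) ≤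
        Real.exp (-(b : ℝ) ^ (c' * m)) * (Nat.card (Scr b m D) : ℝ)

end Pool.Agent.Q71.OS
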