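import Pool.Agent.Q71.OS.Fin2
import Pool.Agent.Q71.DN.All
import Pool.Agent.Q65.OS.OS1
import Pool.Agent.Q65.OS.OS2
import Pool.Agent.Q65.OS.OS4
import Pool.Agent.Q65.OS.OS6
import Pool.Agent.Q111.OS.Ind

set_option autoImplicit false

namespace Pool.Agent.Q71.OS

theorem netScr_thm : StmNetScr := Pool.Agent.Q111.OS.t_NetScr
theorem pat_thm : StmPat := Pool.Agent.Q65.OS.t_Pat Pool.Agent.Q65.OS.t_Box Pool.Agent.Q71.DN.alt_thm
theorem prob_thm : StmProb :=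
  Pool.Agent.Q65.OS.t_Prob pat_thm Pool.Agent.Q111.OS.t_Ind Pool.Agent.Q65.OS.t_Sel netScr_thm
theorem scr_thm : StmScr := t_Scr prob_thm

end Pool.Agent.Q71.OS
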