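import Pool.Agent.Q71.OS.Par
import Pool.Agent.Q71.DN.Fin3

set_option autoImplicit false

namespace Pool.Agent.Q71.OS

open Finset MeasureTheory Pool.Agent.Q71.DN

/-- The `i`-th digit in base `b` (`i = 0` is the first digit after the point) of `y ∈ [0,1)`. -/
noncomputable def dg (b : ℕ) [NeZero b] (i : ℕ) (y : ℝ) : Fin b :=
  Fin.ofNat b ⌊(b : ℝ) ^ (i + 1) * y⌋₊

theorem dg_val (b : ℕ) [NeZero b] (i : ℕ) (y : ℝ) : (dg b i y : ℕ) = digitAt b i y := rfl

/-- `ζ` is the scrambling of the first `m` digits of the points `ξ` by `π`. -/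
def IsScr {b m d : ℕ} [NeZero b] (π : Scr b m d) (ξ ζ : Fin (b ^ m) → Fin d → ℝ) : Prop :=
  ∀ μ j, 0 ≤ ζ μ j ∧ ζ μ j < 1 ∧ ∀ i : Fin m,
    dg b i (ζ μ j) = π j i (fun i' => dg b i' (ξ μ j)) (dg b i (ξ μ j))

/-- `W b v k`: the integer with the base `b` digits `v 0 … v (k-1)`. -/
def W (b : ℕ) (v : ℕ → ℕ) : ℕ → ℕ
  | 0 => 0
  | k + 1 => b * W b v k + v k

theorem W_lt (b : ℕ) (v : ℕ → ℕ) (hv : ∀ i, v i < b) (k : ℕ) : W b v k < b ^ k := by
  induction k with
  | zero => simp [W]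
  | succ k ih =>
    have h1 := hv k
    calc W b v (k + 1) = b * W b v k + v k := rfl
      _ < b * W b v k + b := by omega
      _ = b * (W b v k + 1) := by ring
      _ ≤ b * b ^ k := Nat.mul_le_mul_left _ ih
      _ = b ^ (k + 1) := by ring

theorem floor_succ (b : ℕ) (hb : 2 ≤ b) (y : ℝ) (hy0 : 0 ≤ y) (k : ℕ) :
    ⌊(b : ℝ) ^ (k + 1) * y⌋₊ = b * ⌊(b : ℝ) ^ k * y⌋₊ + digitAt b k y := by
  have h1 : ⌊(b : ℝ) ^ (k + 1) * y⌋₊ / b = ⌊(b : ℝ) ^ k * y⌋₊ := by
    rw [← Nat.floor_div_natCast]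
    congr 1
    have : (b : ℝ) ≠ 0 := by positivity
    rw [pow_succ]; field_simp
  have h2 := Nat.div_add_mod ⌊(b : ℝ) ^ (k + 1) * y⌋₊ b
  rw [h1] at h2
  exact h2.symm

theorem floor_iff (b : ℕ) (hb : 2 ≤ b) (y : ℝ) (hy0 : 0 ≤ y) (hy1 : y < 1) (v : ℕ → ℕ)
    (hv : ∀ i, v i < b) (k : ℕ) :
    ⌊(b : ℝ) ^ k * y⌋₊ = W b v k ↔ ∀ i < k, digitAt b i y = v i := by
  induction k with
  | zero =>
    simp only [pow_zero, one_mul, W, not_lt_zero, false_imp_iff, implies_true, iff_true]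
    exact Nat.floor_eq_zero.mpr hy1
  | succ k ih =>
    rw [floor_succ b hb y hy0 k]
    have hd : digitAt b k y < b := Nat.mod_lt _ (by omega)
    have hvk := hv k
    constructor
    · intro h
      have h' : b * ⌊(b : ℝ) ^ k * y⌋₊ + digitAt b k y = b * W b v k + v k := h
      have hdiv : ⌊(b : ℝ) ^ k * y⌋₊ = W b v k := by
        have e1 : (b * ⌊(b : ℝ) ^ k * y⌋₊ + digitAt b k y) / b = (b * W b v k + v k) / b := by
          rw [h']
        rw [Nat.mul_add_div (by omega), Nat.mul_add_div (by omega), Nat.div_eq_of_lt hd,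
          Nat.div_eq_of_lt hvk] at e1
        simpa using e1
      have hmod : digitAt b k y = v k := by rw [hdiv] at h'; omega
      intro i hi
      rcases Nat.lt_succ_iff_lt_or_eq.mp hi with h1 | h1
      · exact (ih.mp hdiv) i h1
      · rw [h1]; exact hmod
    · intro h
      have h1 := ih.mpr (fun i hi => h i (by omega))
      rw [h1, h k (by omega)]
      rfl

theorem interval_iff (b : ℕ) (hb : 2 ≤ b) (y : ℝ) (hy0 : 0 ≤ y) (n k : ℕ) :
    ((n : ℝ) / (b : ℝ) ^ k ≤ y ∧ y < ((n : ℝ) + 1) / (b : ℝ) ^ k) ↔ ⌊(b : ℝ) ^ k * y⌋₊ = n := by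
  have hp : (0 : ℝ) < (b : ℝ) ^ k := by positivity
  rw [Nat.floor_eq_iff (by positivity), div_le_iff₀ hp, lt_div_iff₀ hp, mul_comm y]

/-- The net property for all coarser levels from the exact levels. -/
theorem net_of_exact (b m D t : ℕ) (hb : 2 ≤ b) (g : Dg b m D) (hg : ∀ μ j i, g μ j i < b)
    (hex : ∀ (a : Fin (D + 1) → ℕ) (v : Fin (D + 1) → ℕ → ℕ), (∑ j, a j) + t = m →
      (∀ j i, v j i < b) →
      Nat.card {μ : Fin (b ^ m) // ∀ j, ∀ i < a j, g μ j i = v j i} = b ^ t) :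
    Net b t m D g := by
  classical
  refine ⟨hg, ?_⟩
  -- induction on the defect
  suffices H : ∀ (e : ℕ) (a : Fin (D + 1) → ℕ) (v : Fin (D + 1) → ℕ → ℕ),
      (∑ j, a j) + t + e = m → (∀ j i, v j i < b) →
      (univ.filter fun μ : Fin (b ^ m) => ∀ j, ∀ i < a j, g μ j i = v j i).card =
        b ^ (m - ∑ j, a j) by
    intro a v ha hv
    exact H (m - (∑ j, a j) - t) a v (by omega) hv
  intro e
  induction e with
  | zero =>
    intro a v ha hv
    have h1 := hex a v (by omega) hv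
    rw [Nat.card_eq_fintype_card, Fintype.card_subtype] at h1
    rw [h1]
    congr 1; omega
  | succ e ih =>
    intro a v ha hv
    set a' : Fin (D + 1) → ℕ := Function.update a 0 (a 0 + 1) with ha'
    have hsum : ∑ j, a' j = ∑ j, a j + 1 := by
      rw [← Finset.add_sum_erase univ a' (mem_univ 0), ← Finset.add_sum_erase univ a (mem_univ 0)]
      have h1 : ∑ j ∈ univ.erase (0 : Fin (D + 1)), a' j = ∑ j ∈ univ.erase (0 : Fin (D + 1)), a j := by
        refine sum_congr rfl fun j hj => ?_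
        simp [ha', Function.update_of_ne (Finset.ne_of_mem_erase hj)]
      rw [h1, ha', Function.update_self]; ring
    have hdec : (univ.filter fun μ : Fin (b ^ m) => ∀ j, ∀ i < a j, g μ j i = v j i) =
        (range b).biUnion (fun c => univ.filter fun μ : Fin (b ^ m) => ∀ j, ∀ i < a' j,
          g μ j i = (Function.update v 0 (Function.update (v 0) (a 0) c)) j i) := by
      ext μ
      simp only [mem_filter, mem_univ, true_and, mem_biUnion, mem_range]
      constructor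
      · intro h
        refine ⟨g μ 0 (a 0), hg _ _ _, ?_⟩
        intro j i hi
        by_cases hj : j = 0
        · subst hj
          rw [Function.update_self]
          by_cases hi0 : i = a 0
          · subst hi0; rw [Function.update_self]
          · rw [Function.update_of_ne hi0]
            apply h
            rw [ha', Function.update_self] at hi
            omega
        · rw [Function.update_of_ne hj]
          apply h
          rw [ha', Function.update_of_ne hj] at hi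
          exact hi
      · rintro ⟨c, _, h⟩ j i hi
        by_cases hj : j = 0
        · subst hj
          have := h 0 i (by rw [ha', Function.update_self]; omega)
          rw [Function.update_self, Function.update_of_ne (by omega)] at this
          exact this
        · have := h j i (by rw [ha', Function.update_of_ne hj]; exact hi)
          rw [Function.update_of_ne hj] at this
          exact this
    rw [hdec, Finset.card_biUnion]
    · have h2 : ∀ c ∈ range b, (univ.filter fun μ : Fin (b ^ m) => ∀ j, ∀ i < a' j,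
          g μ j i = (Function.update v 0 (Function.update (v 0) (a 0) c)) j i).card =
          b ^ (m - ∑ j, a' j) := by
        intro c hc
        apply ih a' _ (by omega)
        intro j i
        by_cases hj : j = 0
        · subst hj
          rw [Function.update_self]
          by_cases hi0 : i = a 0
          · subst hi0; rw [Function.update_self]; exact mem_range.mp hc
          · rw [Function.update_of_ne hi0]; exact hv 0 i
        · rw [Function.update_of_ne hj]; exact hv j i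
      rw [Finset.sum_congr rfl h2, Finset.sum_const, card_range, smul_eq_mul, hsum, ← pow_succ']
      congr 1; omega
    · intro c _ c' _ hcc
      rw [Function.onFun, Finset.disjoint_left]
      intro μ h1 h2
      simp only [mem_filter, mem_univ, true_and] at h1 h2
      have e1 := h1 0 (a 0) (by rw [ha', Function.update_self]; omega)
      have e2 := h2 0 (a 0) (by rw [ha', Function.update_self]; omega)
      rw [Function.update_self, Function.update_self] at e1 e2
      exact hcc (e1.symm.trans e2)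

/-- The digits of the points `ξ`. -/
noncomputable def arr {b m D : ℕ} [NeZero b] (ξ : Fin (b ^ m) → Fin (D + 1) → ℝ) : Arr b m D :=
  fun μ j i => dg b i (ξ μ j)

theorem toDg_lt {b m D : ℕ} (hb : 1 ≤ b) (g : Arr b m D) : ∀ μ j i, toDg g μ j i < b := by
  intro μ j i
  unfold toDg
  split_ifs
  · exact Fin.is_lt _
  · omega

theorem toDg_apply {b m D : ℕ} (g : Arr b m D) (μ : Fin (b ^ m)) (j : Fin (D + 1)) (i : ℕ)
    (h : i < m) : toDg g μ j i = (g μ j ⟨i, h⟩ : ℕ) := by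
  unfold toDg; rw [dif_pos h]

theorem net_arr {b m D : ℕ} [NeZero b] (t : ℕ) (hb : 2 ≤ b) (ξ : Fin (b ^ m) → Fin (D + 1) → ℝ)
    (hξ : ∀ μ j, 0 ≤ ξ μ j ∧ ξ μ j < 1) (h : IsPNet b t m ξ) : Net b t m D (toDg (arr ξ)) := by
  classical
  apply net_of_exact b m D t hb _ (toDg_lt (by omega) _)
  intro a v ha hv
  have h1 := h a (fun j => W b (v j) (a j)) ha (fun j => W_lt b (v j) (hv j) (a j))
  have ham : ∀ j, a j ≤ m := fun j => by
    have := Finset.single_le_sum (f := a) (fun j _ => Nat.zero_le _) (mem_univ j)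
    omega
  rw [← h1, Nat.card_eq_fintype_card, Fintype.card_subtype]
  congr 1
  ext μ
  simp only [mem_filter, mem_univ, true_and]
  refine forall_congr' fun j => ?_
  rw [interval_iff b hb (ξ μ j) (hξ μ j).1,
    floor_iff b hb (ξ μ j) (hξ μ j).1 (hξ μ j).2 (v j) (hv j)]
  refine forall_congr' fun i => forall_congr' fun hi => ?_
  rw [toDg_apply _ _ _ _ (lt_of_lt_of_le hi (ham j))]
  exact Iff.rfl

/-- `IsDg` from digit equations. -/
theorem isDg_of_digits {b m D : ℕ} (hb : 2 ≤ b) (g : Arr b m D)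
    (z : Fin (b ^ m) → Fin (D + 1) → ℝ)
    (h : ∀ μ j, 0 ≤ z μ j ∧ z μ j < 1 ∧ ∀ i : Fin m, digitAt b i (z μ j) = (g μ j i : ℕ)) :
    IsDg (toDg g) z := by
  intro μ j
  obtain ⟨h0, h1, h2⟩ := h μ j
  have h3 := digit_bounds b hb (z μ j) h0 h1 m
  have h4 : trg b (toDg g μ j) m =
      ∑ i ∈ range m, (digitAt b i (z μ j) : ℝ) / (b : ℝ) ^ (i + 1) := by
    unfold trg
    refine sum_congr rfl fun i hi => ?_
    rw [toDg_apply _ _ _ _ (mem_range.mp hi), ← h2 ⟨i, mem_range.mp hi⟩]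
  rw [h4]
  exact h3

theorem bdN_of_star (hS : StmStar) {b m D : ℕ} (hb : 2 ≤ b)
    (ζ : Fin (b ^ m) → Fin (D + 1) → ℝ) (hζ : ∀ μ j, 0 ≤ ζ μ j ∧ ζ μ j < 1)
    (R : ℝ) (hR : 0 ≤ R) (h : starDisc ζ ≤ ENNReal.ofReal (R / ((b ^ m : ℕ) : ℝ))) :
    BdN ζ (2 ^ (D + 1) * R) := by
  classical
  intro Y X hYX
  have hN : 1 ≤ b ^ m := Nat.one_le_pow _ _ (by omega)
  have h1 := hS (b ^ m) (D + 1) ζ hN hζ R hR h Y X hYX
  rw [Nat.card_eq_fintype_card, Fintype.card_subtype] at h1
  push_cast at h1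
  exact h1

/-- Scrambling of coordinate `0` only. -/
def scr0 {b m D : ℕ} (π₀ : (i : Fin m) → (Fin (i : ℕ) → Fin b) → Equiv.Perm (Fin b))
    (g : Arr b m D) : Arr b m D :=
  scrAll (Fin.cons (α := fun _ => (i : Fin m) → (Fin (i : ℕ) → Fin b) → Equiv.Perm (Fin b))
    π₀ (fun _ _ _ => Equiv.refl _)) g

theorem scr_split {b m D : ℕ} (π : Scr b m (D + 1)) (g : Arr b m D) :
    scrAll π g = scr1 (fun j => π j.succ) (scr0 (π 0) g) := by
  funext μ j i
  refine Fin.cases ?_ (fun j => ?_) j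
  · rfl
  · rfl

/-- The part on nets: all coordinates are scrambled. -/
theorem nets (hS : StmStar) (hN : StmNetScr) (hM : StmScr) (D : ℕ) (hD : 1 ≤ D) :
    ∃ c c' : ℝ, 0 < c ∧ 0 < c' ∧ ∀ (b : ℕ) [NeZero b] (t m : ℕ)
      (ξ : Fin (b ^ m) → Fin (D + 1) → ℝ), 2 ≤ b → (∀ μ j, 0 ≤ ξ μ j ∧ ξ μ j < 1) →
      IsPNet b t m ξ →
      (Nat.card {π : Scr b m (D + 1) // ∃ ζ : Fin (b ^ m) → Fin (D + 1) → ℝ, IsScr π ξ ζ ∧
        starDisc ζ < ENNReal.ofReal (c * ((m : ℝ) / ((t : ℝ) + 1)) ^ D / (b : ℝ) ^ m)} : ℝ) ≤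
        Real.exp (-(b : ℝ) ^ (c' * m)) * (Nat.card (Scr b m (D + 1)) : ℝ) := by
  classical
  obtain ⟨c, c', hc, hc', hmain⟩ := hM D hD
  refine ⟨c / 2 ^ (D + 2), c', by positivity, hc', ?_⟩
  intro b _ t m ξ hb hξ hnet
  set Node := (i : Fin m) → (Fin (i : ℕ) → Fin b) → Equiv.Perm (Fin b)
  set badS : Node → Scr b m D → Prop := fun π₀ π =>
    ∃ (z : Fin (b ^ m) → Fin (D + 1) → ℝ) (R : ℝ),
        IsDg (toDg (scr1 π (scr0 π₀ (arr ξ)))) z ∧ BdN z R ∧
          R < c * ((m : ℝ) / ((t : ℝ) + 1)) ^ D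
  have hgood : ∀ π₀ : Node, (Nat.card {π : Scr b m D // badS π₀ π} : ℝ) ≤
      Real.exp (-(b : ℝ) ^ (c' * m)) * (Nat.card (Scr b m D) : ℝ) := by
    intro π₀
    apply hmain b m t (scr0 π₀ (arr ξ)) hb
    exact hN b m D t _ _ (by omega) (net_arr t hb ξ hξ hnet)
  -- the bad set
  have hsub : ∀ π : Scr b m (D + 1), (∃ ζ : Fin (b ^ m) → Fin (D + 1) → ℝ, IsScr π ξ ζ ∧
        starDisc ζ < ENNReal.ofReal (c / 2 ^ (D + 2) * ((m : ℝ) / ((t : ℝ) + 1)) ^ D /
          (b : ℝ) ^ m)) → badS (π 0) (fun j => π j.succ) := by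
    rintro π ⟨ζ, hζ, hlt⟩
    have hA0 : 0 ≤ ((m : ℝ) / ((t : ℝ) + 1)) ^ D := by positivity
    refine ⟨ζ, 2 ^ (D + 1) * (c / 2 ^ (D + 2) * ((m : ℝ) / ((t : ℝ) + 1)) ^ D), ?_, ?_, ?_⟩
    · rw [← scr_split]
      apply isDg_of_digits hb
      intro μ j
      obtain ⟨h0, h1, h2⟩ := hζ μ j
      refine ⟨h0, h1, fun i => ?_⟩
      rw [← dg_val b i, h2 i]
      rfl
    · apply bdN_of_star hS hb ζ (fun μ j => ⟨(hζ μ j).1, (hζ μ j).2.1⟩) _ (by positivity)
      push_cast
      exact hlt.le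
    · have e1 : (2 : ℝ) ^ (D + 1) * (c / 2 ^ (D + 2) * ((m : ℝ) / ((t : ℝ) + 1)) ^ D) =
          c * ((m : ℝ) / ((t : ℝ) + 1)) ^ D / 2 := by
        rw [pow_succ (2 : ℝ) (D + 1)]; field_simp
      rw [e1]
      have hpos : 0 < c * ((m : ℝ) / ((t : ℝ) + 1)) ^ D := by
        rcases hA0.lt_or_eq with h | h
        · positivity
        · exfalso
          rw [← h] at hlt
          simp at hlt
      linarith
  -- counting
  let E : Scr b m (D + 1) ≃ Node × Scr b m D :=
    (Fin.consEquiv (fun _ : Fin (D + 1) => Node)).symm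
  have hE : ∀ π, E π = (π 0, fun j => π j.succ) := fun π => rfl
  have h1 : Nat.card {π : Scr b m (D + 1) // ∃ ζ : Fin (b ^ m) → Fin (D + 1) → ℝ, IsScr π ξ ζ ∧
        starDisc ζ < ENNReal.ofReal (c / 2 ^ (D + 2) * ((m : ℝ) / ((t : ℝ) + 1)) ^ D /
          (b : ℝ) ^ m)} ≤ Nat.card (Σ π₀ : Node, {π : Scr b m D // badS π₀ π}) := by
    refine Nat.card_le_card_of_injective
      (fun x => ⟨x.1 0, ⟨fun j => x.1 j.succ, hsub x.1 x.2⟩⟩) ?_
    intro x y hxy
    simp only [Sigma.mk.injEq] at hxy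
    obtain ⟨h01, h02⟩ := hxy
    have h03 : (fun j : Fin D => x.1 j.succ) = fun j : Fin D => y.1 j.succ := by
      have key : ∀ (p p' : Node) (hp : p = p') (u : {π : Scr b m D // badS p π})
          (u' : {π : Scr b m D // badS p' π}), HEq u u' → u.1 = u'.1 := by
        intro p p' hp u u' huu
        subst hp
        rw [eq_of_heq huu]
      exact key _ _ h01 _ _ h02
    apply Subtype.ext
    funext j
    refine Fin.cases h01 (fun j => congrFun h03 j) j
  have h2 : (Nat.card (Σ π₀ : Node, {π : Scr b m D // badS π₀ π}) : ℝ) =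
      ∑ π₀ : Node, (Nat.card {π : Scr b m D // badS π₀ π} : ℝ) := by
    rw [Nat.card_sigma]
    push_cast
    rfl
  have h3 : (Nat.card (Scr b m (D + 1)) : ℝ) = (Fintype.card Node : ℝ) * (Nat.card (Scr b m D) : ℝ) := by
    rw [Nat.card_congr E, Nat.card_prod, Nat.card_eq_fintype_card (α := Node)]
    push_cast
    rfl
  calc (Nat.card {π : Scr b m (D + 1) // ∃ ζ : Fin (b ^ m) → Fin (D + 1) → ℝ, IsScr π ξ ζ ∧
        starDisc ζ < ENNReal.ofReal (c / 2 ^ (D + 2) * ((m : ℝ) / ((t : ℝ) + 1)) ^ D /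
          (b : ℝ) ^ m)} : ℝ) ≤ (Nat.card (Σ π₀ : Node, {π : Scr b m D // badS π₀ π}) : ℝ) := by
        exact_mod_cast h1
    _ = ∑ π₀ : Node, (Nat.card {π : Scr b m D // badS π₀ π} : ℝ) := h2
    _ ≤ ∑ _π₀ : Node, Real.exp (-(b : ℝ) ^ (c' * m)) * (Nat.card (Scr b m D) : ℝ) :=
        Finset.sum_le_sum fun π₀ _ => hgood π₀
    _ = Real.exp (-(b : ℝ) ^ (c' * m)) * (Nat.card (Scr b m (D + 1)) : ℝ) := by
        rw [Finset.sum_const, card_univ, nsmul_eq_mul, h3]; ring

end Pool.Agent.Q71.OS
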