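import Pool.Agent.Q71.OS.Fin

set_option autoImplicit false

namespace Pool.Agent.Q71.OS

open Finset MeasureTheory Pool.Agent.Q71.DN

/-- `ζ n`, `n < b^m`, are the scramblings of the first `m` digits of the points `x n` by `π`. -/
def IsScrSeq {b m s : ℕ} [NeZero b] (π : Scr b m s) (x ζ : ℕ → Fin s → ℝ) : Prop :=
  ∀ n < b ^ m, ∀ j, 0 ≤ ζ n j ∧ ζ n j < 1 ∧ ∀ i : Fin m,
    dg b i (ζ n j) = π j i (fun i' => dg b i' (x n j)) (dg b i (x n j))

/-- The digits of the points `(n / b^m, x n)`. -/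
noncomputable def seqArr {b D : ℕ} [NeZero b] (m : ℕ) (x : ℕ → Fin D → ℝ) : Arr b m D :=
  fun μ => Fin.cons (α := fun _ => Fin m → Fin b)
    (fun i => Fin.ofNat b ((μ : ℕ) / b ^ (m - 1 - (i : ℕ)))) (fun j i => dg b i (x μ j))

theorem digit_div (b : ℕ) (hb : 2 ≤ b) (m n i : ℕ) (hi : i < m) :
    digitAt b i ((n : ℝ) / (b : ℝ) ^ m) = n / b ^ (m - 1 - i) % b := by
  have h1 : (b : ℝ) ^ (i + 1) * ((n : ℝ) / (b : ℝ) ^ m) = (n : ℝ) / ((b ^ (m - 1 - i) : ℕ) : ℝ) := by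
    push_cast
    have : (b : ℝ) ^ m = (b : ℝ) ^ (i + 1) * (b : ℝ) ^ (m - 1 - i) := by
      rw [← pow_add]; congr 1; omega
    have hb0 : (b : ℝ) ≠ 0 := by positivity
    rw [this]; field_simp
  unfold digitAt
  rw [h1, Nat.floor_div_natCast, Nat.floor_natCast]

theorem floor_div' (b : ℕ) (hb : 2 ≤ b) (m n a : ℕ) (ha : a ≤ m) :
    ⌊(b : ℝ) ^ a * ((n : ℝ) / (b : ℝ) ^ m)⌋₊ = n / b ^ (m - a) := by
  have h1 : (b : ℝ) ^ a * ((n : ℝ) / (b : ℝ) ^ m) = (n : ℝ) / ((b ^ (m - a) : ℕ) : ℝ) := by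
    push_cast
    have : (b : ℝ) ^ m = (b : ℝ) ^ a * (b : ℝ) ^ (m - a) := by
      rw [← pow_add]; congr 1; omega
    have hb0 : (b : ℝ) ≠ 0 := by positivity
    rw [this]; field_simp
  rw [h1, Nat.floor_div_natCast, Nat.floor_natCast]

theorem net_seqArr {b m D : ℕ} [NeZero b] (t : ℕ) (hb : 2 ≤ b) (x : ℕ → Fin D → ℝ)
    (hx : ∀ n j, 0 ≤ x n j ∧ x n j < 1) (h : IsTSeq b t x) :
    Net b t m D (toDg (seqArr (b := b) m x)) := by
  classical
  apply net_of_exact b m D t hb _ (toDg_lt (by omega) _)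
  intro a v ha hv
  have ha' : a 0 + ∑ i : Fin D, a i.succ + t = m := by
    rw [← Fin.sum_univ_succ]; exact ha
  have ham : ∀ j, a j ≤ m := fun j => by
    have := Finset.single_le_sum (f := a) (fun j _ => Nat.zero_le _) (mem_univ j)
    omega
  have h1 := h (W b (v 0) (a 0)) (m - a 0) (fun i => a i.succ) (fun i => W b (v i.succ) (a i.succ))
    (by omega) (fun i => W_lt b _ (hv _) _)
  have hW := W_lt b (v 0) (hv 0) (a 0)
  have hpow : b ^ m = b ^ a 0 * b ^ (m - a 0) := by rw [← pow_add]; congr 1; omega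
  have hbp : 0 < b ^ (m - a 0) := Nat.pow_pos (by omega)
  rw [← h1, Nat.card_eq_fintype_card, Fintype.card_subtype]
  have hiff : ∀ μ : Fin (b ^ m), (∀ j, ∀ i < a j, toDg (seqArr (b := b) m x) μ j i = v j i) ↔
      ((μ : ℕ) ∈ Ico (W b (v 0) (a 0) * b ^ (m - a 0)) ((W b (v 0) (a 0) + 1) * b ^ (m - a 0)) ∧
      ∀ i, ((W b (v i.succ) (a i.succ) : ℕ) : ℝ) / (b:ℝ) ^ a i.succ ≤ x μ i ∧
      x μ i < (((W b (v i.succ) (a i.succ) : ℕ) : ℝ) + 1) / (b:ℝ) ^ a i.succ) := by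
    intro μ
    rw [Fin.forall_fin_succ]
    apply and_congr
    · have hy0 : 0 ≤ ((μ : ℕ) : ℝ) / (b : ℝ) ^ m := by positivity
      have hy1 : ((μ : ℕ) : ℝ) / (b : ℝ) ^ m < 1 := by
        rw [div_lt_one (by positivity)]
        exact_mod_cast μ.2
      have e1 := floor_iff b hb _ hy0 hy1 (v 0) (hv 0) (a 0)
      rw [floor_div' b hb m μ (a 0) (ham 0)] at e1
      have e2 : (∀ i < a 0, toDg (seqArr (b := b) m x) μ 0 i = v 0 i) ↔
          ∀ i < a 0, digitAt b i (((μ : ℕ) : ℝ) / (b : ℝ) ^ m) = v 0 i := by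
        refine forall_congr' fun i => forall_congr' fun hi => ?_
        have him : i < m := lt_of_lt_of_le hi (ham 0)
        rw [toDg_apply _ _ _ _ him, digit_div b hb m μ i him]
        exact Iff.rfl
      rw [e2, ← e1, Nat.div_eq_iff hbp, mem_Ico]
      constructor
      · rintro ⟨h2, h3⟩
        refine ⟨h2, ?_⟩
        rw [add_mul, one_mul]; omega
      · rintro ⟨h2, h3⟩
        refine ⟨h2, ?_⟩
        rw [add_mul, one_mul] at h3; omega
    · refine forall_congr' fun j => ?_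
      rw [interval_iff b hb (x μ j) (hx μ j).1,
        floor_iff b hb (x μ j) (hx μ j).1 (hx μ j).2 (v j.succ) (hv j.succ)]
      refine forall_congr' fun i => forall_congr' fun hi => ?_
      rw [toDg_apply _ _ _ _ (lt_of_lt_of_le hi (ham j.succ))]
      exact Iff.rfl
  refine Finset.card_bij (fun μ _ => (μ : ℕ)) ?_ ?_ ?_
  · intro μ hμ
    rw [mem_filter] at hμ ⊢
    exact (hiff μ).mp hμ.2
  · intro μ _ ν _ h12
    exact Fin.ext h12
  · intro n hn
    rw [mem_filter] at hn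
    have hnq : n < b ^ m := by
      have h2 := (mem_Ico.mp hn.1).2
      calc n < (W b (v 0) (a 0) + 1) * b ^ (m - a 0) := h2
        _ ≤ b ^ a 0 * b ^ (m - a 0) := Nat.mul_le_mul_right _ hW
        _ = b ^ m := hpow.symm
    refine ⟨⟨n, hnq⟩, ?_, rfl⟩
    rw [mem_filter]
    exact ⟨mem_univ _, (hiff _).mpr hn⟩

/-- The points `(n / b^m, ζ n)`. -/
noncomputable def seqPts (b m : ℕ) {D : ℕ} (ζ : ℕ → Fin D → ℝ) : Fin (b ^ m) → Fin (D + 1) → ℝ :=
  fun μ => Fin.cons (α := fun _ => ℝ) (((μ : ℕ) : ℝ) / (b : ℝ) ^ m) (ζ μ)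

/-- Counting points of the sequence. -/
theorem seq_bd (hS : StmStar) {b D : ℕ} (hb : 2 ≤ b) (ζ : ℕ → Fin (D + 1) → ℝ) (m : ℕ)
    (hζ : ∀ n < b ^ m, ∀ j, 0 ≤ ζ n j ∧ ζ n j < 1) (A : ℝ) (hA : 0 ≤ A)
    (h : ∀ N : ℕ, 1 ≤ N → N ≤ b ^ m →
      starDisc (fun μ : Fin N => ζ μ) ≤ ENNReal.ofReal (A / N)) :
    1 / 2 ≤ 2 ^ (D + 1) * A ∧ BdN (seqPts b m ζ) (2 ^ (D + 2) * A + 1) := by
  classical
  have hq0 : (0 : ℝ) < (b : ℝ) := by positivity
  have hb1 : 1 ≤ b ^ m := Nat.one_le_pow _ _ (by omega)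
  -- counting function
  have hf : ∀ Y X : Fin (D + 1) → ℝ, (∀ j, 0 ≤ Y j ∧ Y j ≤ X j ∧ X j ≤ 1) →
      ∀ N : ℕ, N ≤ b ^ m →
      |(((range N).filter (fun n => ∀ j, Y j ≤ ζ n j ∧ ζ n j < X j)).card : ℝ) -
        (N : ℝ) * ∏ j, (X j - Y j)| ≤ 2 ^ (D + 1) * A := by
    intro Y X hYX N hN
    rcases Nat.eq_zero_or_pos N with h0 | h0
    · subst h0
      simp only [range_zero, filter_empty, card_empty, Nat.cast_zero, zero_mul, sub_zero, abs_zero]
      positivity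
    · have h1 := hS N (D + 1) (fun μ : Fin N => ζ μ) h0
        (fun μ j => hζ μ (lt_of_lt_of_le μ.2 hN) j) A hA (h N h0 hN) Y X hYX
      have h2 : Nat.card {μ : Fin N // ∀ j, Y j ≤ ζ μ j ∧ ζ μ j < X j} =
          ((range N).filter (fun n => ∀ j, Y j ≤ ζ n j ∧ ζ n j < X j)).card := by
        rw [Nat.card_eq_fintype_card, Fintype.card_subtype]
        refine Finset.card_bij (fun μ _ => (μ : ℕ)) ?_ ?_ ?_
        · intro μ hμ
          rw [mem_filter] at hμ ⊢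
          exact ⟨mem_range.mpr μ.2, hμ.2⟩
        · intro a _ b _ hab
          exact Fin.ext hab
        · intro n hn
          rw [mem_filter, mem_range] at hn
          exact ⟨⟨n, hn.1⟩, by rw [mem_filter]; exact ⟨mem_univ _, hn.2⟩, rfl⟩
      rw [h2] at h1
      exact h1
  constructor
  · have hx01 : ∀ j, 0 ≤ ζ 0 j ∧ ζ 0 j < 1 := fun j => hζ 0 (by omega) j
    have h1 := hf (fun j => ζ 0 j) (fun j => min 1 (ζ 0 j + 1 / 2)) (fun j =>
      ⟨(hx01 j).1, le_min (hx01 j).2.le (by linarith), min_le_left _ _⟩) 1 hb1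
    have h2 : ((range 1).filter (fun n => ∀ j, ζ 0 j ≤ ζ n j ∧
        ζ n j < min 1 (ζ 0 j + 1 / 2))).card = 1 := by
      rw [range_one, filter_singleton, if_pos, card_singleton]
      intro j
      exact ⟨le_refl _, lt_min (hx01 j).2 (by linarith)⟩
    rw [h2] at h1
    have h3 : ∏ j : Fin (D + 1), (min 1 (ζ 0 j + 1 / 2) - ζ 0 j) ≤ 1 / 2 := by
      rw [Fin.prod_univ_succ]
      have ha : ∀ j, 0 ≤ min 1 (ζ 0 j + 1 / 2) - ζ 0 j := fun j => by
        rw [sub_nonneg]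
        exact le_min (hx01 j).2.le (by linarith)
      have hb : ∀ j, min 1 (ζ 0 j + 1 / 2) - ζ 0 j ≤ 1 / 2 := fun j => by
        have := min_le_right 1 (ζ 0 j + 1 / 2)
        linarith
      have hc : ∏ j : Fin D, (min 1 (ζ 0 j.succ + 1 / 2) - ζ 0 j.succ) ≤ 1 := by
        apply Finset.prod_le_one (fun j _ => ha _)
        intro j _
        linarith [hb j.succ]
      calc _ ≤ (1 / 2 : ℝ) * 1 := mul_le_mul (hb 0) hc (Finset.prod_nonneg fun j _ => ha _) (by norm_num)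
        _ = _ := by norm_num
    have h4 := (abs_le.mp h1).2
    push_cast at h4
    linarith
  · intro Y X hYX
    have hQ : (0 : ℝ) < (b : ℝ) ^ m := by positivity
    set Y' : Fin (D + 1) → ℝ := fun j => Y j.succ with hY'
    set X' : Fin (D + 1) → ℝ := fun j => X j.succ with hX'
    set a : ℕ := ⌈(b : ℝ) ^ m * Y 0⌉₊ with ha
    set e : ℕ := ⌈(b : ℝ) ^ m * X 0⌉₊ with he
    have hab : a ≤ e := by
      apply Nat.ceil_le_ceil
      exact mul_le_mul_of_nonneg_left (hYX 0).2.1 hQ.le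
    have hbq : e ≤ b ^ m := by
      rw [he, Nat.ceil_le]
      push_cast
      nlinarith [(hYX 0).2.2]
    have hX0 : 0 ≤ X 0 := le_trans (hYX 0).1 (hYX 0).2.1
    set K : ℕ := (univ.filter fun μ : Fin (b ^ m) => ∀ j, Y j ≤ seqPts b m ζ μ j ∧
        seqPts b m ζ μ j < X j).card with hK
    have hcnt : K +
        ((range a).filter (fun n => ∀ j, Y' j ≤ ζ n j ∧ ζ n j < X' j)).card =
        ((range e).filter (fun n => ∀ j, Y' j ≤ ζ n j ∧ ζ n j < X' j)).card := by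
      have h1 : K = ((Ico a e).filter (fun n => ∀ j, Y' j ≤ ζ n j ∧ ζ n j < X' j)).card := by
        rw [hK]
        have hiff : ∀ μ : Fin (b ^ m), (∀ j, Y j ≤ seqPts b m ζ μ j ∧
            seqPts b m ζ μ j < X j) ↔ (((μ : ℕ) ∈ Ico a e) ∧
            ∀ j, Y' j ≤ ζ μ j ∧ ζ μ j < X' j) := by
          intro μ
          rw [Fin.forall_fin_succ]
          apply and_congr
          · have hz : seqPts b m ζ μ 0 = ((μ : ℕ) : ℝ) / (b : ℝ) ^ m := rfl
            rw [hz, mem_Ico, ha, he, Nat.ceil_le, Nat.lt_ceil, le_div_iff₀ hQ, div_lt_iff₀ hQ,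
              mul_comm (Y 0), mul_comm (X 0)]
          · exact Iff.rfl
        refine Finset.card_bij (fun μ _ => (μ : ℕ)) ?_ ?_ ?_
        · intro v hv
          rw [mem_filter] at hv ⊢
          exact (hiff v).mp hv.2
        · intro v1 _ v2 _ h12
          exact Fin.ext h12
        · intro n hn
          rw [mem_filter] at hn
          have hnq : n < b ^ m := lt_of_lt_of_le (mem_Ico.mp hn.1).2 hbq
          refine ⟨⟨n, hnq⟩, ?_, rfl⟩
          rw [mem_filter]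
          exact ⟨mem_univ _, (hiff _).mpr hn⟩
      rw [h1, add_comm]
      have h2 : range e = range a ∪ Ico a e := by
        ext n
        simp only [mem_union, mem_range, mem_Ico]
        omega
      rw [h2, filter_union, card_union_of_disjoint]
      apply Finset.disjoint_filter_filter
      rw [Finset.disjoint_left]
      intro n hn hn'
      rw [mem_range] at hn
      rw [mem_Ico] at hn'
      omega
    have hYX' : ∀ j, 0 ≤ Y' j ∧ Y' j ≤ X' j ∧ X' j ≤ 1 := fun j => hYX j.succ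
    have ea := hf Y' X' hYX' a (hab.trans hbq)
    have eb := hf Y' X' hYX' e hbq
    set W : ℝ := ∏ j, (X' j - Y' j) with hW
    have hW0 : 0 ≤ W := Finset.prod_nonneg fun j _ => by linarith [(hYX' j).2.1]
    have hW1 : W ≤ 1 := Finset.prod_le_one (fun j _ => by linarith [(hYX' j).2.1])
      (fun j _ => by linarith [(hYX' j).2.2, (hYX' j).1])
    have hprod : ∏ j, (X j - Y j) = (X 0 - Y 0) * W := by
      rw [Fin.prod_univ_succ]
    have hcR : (K : ℝ) =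
        ((range e).filter (fun n => ∀ j, Y' j ≤ ζ n j ∧ ζ n j < X' j)).card -
        ((range a).filter (fun n => ∀ j, Y' j ≤ ζ n j ∧ ζ n j < X' j)).card := by
      rw [eq_sub_iff_add_eq]
      exact_mod_cast hcnt
    have hca : (a : ℝ) < (b : ℝ) ^ m * Y 0 + 1 :=
      Nat.ceil_lt_add_one (mul_nonneg hQ.le (hYX 0).1)
    have hca' : (b : ℝ) ^ m * Y 0 ≤ a := Nat.le_ceil _
    have hcb : (e : ℝ) < (b : ℝ) ^ m * X 0 + 1 :=
      Nat.ceil_lt_add_one (mul_nonneg hQ.le hX0)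
    have hcb' : (b : ℝ) ^ m * X 0 ≤ e := Nat.le_ceil _
    rw [hcR, hprod]
    rw [abs_le] at ea eb ⊢
    have hp : (2 : ℝ) ^ (D + 2) * A = 2 * (2 ^ (D + 1) * A) := by rw [pow_succ (2 : ℝ) (D + 1)]; ring
    rw [hp]
    set B : ℝ := 2 ^ (D + 1) * A
    have k1 : ((e : ℝ) - a - (b : ℝ) ^ m * (X 0 - Y 0)) * W ≤ 1 := by
      have : (e : ℝ) - a - (b : ℝ) ^ m * (X 0 - Y 0) ≤ 1 := by linarith
      nlinarith
    have k2 : -1 ≤ ((e : ℝ) - a - (b : ℝ) ^ m * (X 0 - Y 0)) * W := by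
      have : -1 ≤ (e : ℝ) - a - (b : ℝ) ^ m * (X 0 - Y 0) := by linarith
      nlinarith
    constructor
    · nlinarith [ea.1, ea.2, eb.1, eb.2]
    · nlinarith [ea.1, ea.2, eb.1, eb.2]

/-- The part on sequences. -/
theorem seqs (hS : StmStar) (hM : StmScr) (D : ℕ) :
    ∃ c c' : ℝ, 0 < c ∧ 0 < c' ∧ ∀ (b : ℕ) [NeZero b] (t m : ℕ)
      (x : ℕ → Fin (D + 1) → ℝ), 2 ≤ b → (∀ n j, 0 ≤ x n j ∧ x n j < 1) →
      IsTSeq b t x →
      (Nat.card {π : Scr b m (D + 1) // ∃ ζ : ℕ → Fin (D + 1) → ℝ, IsScrSeq π x ζ ∧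
        ∀ N : ℕ, 1 ≤ N → N ≤ b ^ m → starDisc (fun μ : Fin N => ζ μ) <
          ENNReal.ofReal (c * ((m : ℝ) / ((t : ℝ) + 1)) ^ (D + 1) / N)} : ℝ) ≤
        Real.exp (-(b : ℝ) ^ (c' * m)) * (Nat.card (Scr b m (D + 1)) : ℝ) := by
  obtain ⟨c, c', hc, hc', hmain⟩ := hM (D + 1) (by omega)
  refine ⟨c / 2 ^ (D + 4), c', by positivity, hc', ?_⟩
  intro b _ t m x hb hx hseq
  refine le_trans (Nat.cast_le.mpr ?_) (hmain b m t (seqArr m x) hb (net_seqArr t hb x hx hseq))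
  refine Nat.card_le_card_of_injective (fun y => ⟨y.1, ?_⟩)
    (fun y y' hyy => Subtype.ext (by simpa using hyy))
  obtain ⟨ζ, hζ, hlt⟩ := y.2
  have hA0 : 0 ≤ ((m : ℝ) / ((t : ℝ) + 1)) ^ (D + 1) := by positivity
  have hb1 : 1 ≤ b ^ m := Nat.one_le_pow _ _ (by omega)
  obtain ⟨h1, h2⟩ := seq_bd hS hb ζ m (fun n hn j => ⟨(hζ n hn j).1, (hζ n hn j).2.1⟩)
    (c / 2 ^ (D + 4) * ((m : ℝ) / ((t : ℝ) + 1)) ^ (D + 1)) (by positivity)
    (fun N hN1 hN2 => (hlt N hN1 hN2).le)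
  refine ⟨seqPts b m ζ, _, ?_, h2, ?_⟩
  · apply isDg_of_digits hb
    intro μ j
    refine Fin.cases ?_ (fun j => ?_) j
    · have hz : seqPts b m ζ μ 0 = ((μ : ℕ) : ℝ) / (b : ℝ) ^ m := rfl
      rw [hz]
      refine ⟨by positivity, ?_, fun i => ?_⟩
      · rw [div_lt_one (by positivity)]
        exact_mod_cast μ.2
      · rw [digit_div b hb m μ i i.2]
        rfl
    · have hz : seqPts b m ζ μ j.succ = ζ μ j := rfl
      rw [hz]
      obtain ⟨h0, h1, h2⟩ := hζ μ μ.2 j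
      refine ⟨h0, h1, fun i => ?_⟩
      rw [← dg_val b i, h2 i]
      rfl
  · set A : ℝ := ((m : ℝ) / ((t : ℝ) + 1)) ^ (D + 1) with hA
    have e1 : (2 : ℝ) ^ (D + 1) * (c / 2 ^ (D + 4) * A) = c * A / 8 := by
      rw [show D + 4 = (D + 1) + 3 from rfl, pow_add (2 : ℝ) (D + 1) 3]
      field_simp
      ring
    have e2 : (2 : ℝ) ^ (D + 2) * (c / 2 ^ (D + 4) * A) = c * A / 4 := by
      rw [show D + 4 = (D + 2) + 2 from rfl, pow_add (2 : ℝ) (D + 2) 2]
      field_simp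
      ring
    rw [e1] at h1
    rw [e2]
    linarith

end Pool.Agent.Q71.OS
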