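import Pool.Agent.Q71.OS.Defs

set_option autoImplicit false

namespace Pool.Agent.Q71.OS

open Finset Pool.Agent.Q71.DN

theorem trg_nonneg (b : ℕ) (h : ℕ → ℕ) (u : ℕ) : 0 ≤ trg b h u :=
  Finset.sum_nonneg fun i _ => by positivity

theorem trg_le (b : ℕ) (hb : 1 ≤ b) (h : ℕ → ℕ) (hh : ∀ i, h i < b) (u : ℕ) :
    trg b h u + 1 / (b : ℝ) ^ u ≤ 1 := by
  have hb0 : (0 : ℝ) < b := by exact_mod_cast hb
  induction u with
  | zero => simp [trg]
  | succ u ih =>
    have h1 : trg b h (u + 1) = trg b h u + (h u : ℝ) / (b : ℝ) ^ (u + 1) := by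
      unfold trg; rw [sum_range_succ]
    have h2 : (h u : ℝ) + 1 ≤ b := by exact_mod_cast hh u
    have h3 : (h u : ℝ) / (b : ℝ) ^ (u + 1) + 1 / (b : ℝ) ^ (u + 1) ≤ 1 / (b : ℝ) ^ u := by
      rw [← add_div, div_le_div_iff₀ (by positivity) (by positivity), pow_succ]
      have : (0 : ℝ) < (b : ℝ) ^ u := by positivity
      nlinarith
    rw [h1]; linarith

theorem z_mem {b m D : ℕ} (hb : 1 ≤ b) (g : Dg b m D) (hg : ∀ μ j i, g μ j i < b)
    (z : Fin (b ^ m) → Fin (D + 1) → ℝ) (hz : IsDg g z) (μ : Fin (b ^ m)) (j : Fin (D + 1)) :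
    0 ≤ z μ j ∧ z μ j < 1 := by
  have h1 := hz μ j
  have h2 := trg_nonneg b (g μ j) m
  have h3 := trg_le b hb (g μ j) (hg μ j) m
  constructor <;> linarith

theorem half_le {b m D : ℕ} (hb : 1 ≤ b) (g : Dg b m D) (hg : ∀ μ j i, g μ j i < b)
    (z : Fin (b ^ m) → Fin (D + 1) → ℝ) (hz : IsDg g z) (R : ℝ) (hR : BdN z R) : 1 / 2 ≤ R := by
  classical
  have hN : 0 < b ^ m := Nat.pow_pos (by omega)
  have hNR : (0 : ℝ) < (b : ℝ) ^ m := by positivity
  set μ : Fin (b ^ m) := ⟨0, hN⟩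
  have hz' := fun j => z_mem hb g hg z hz μ j
  set e : ℝ := 1 / (2 * (b : ℝ) ^ m) with he
  have he0 : 0 < e := by positivity
  have h1 := hR (fun j => z μ j) (fun j => min 1 (z μ j + e)) (fun j =>
    ⟨(hz' j).1, le_min (hz' j).2.le (by linarith), min_le_left _ _⟩)
  have h2 : (1 : ℝ) ≤ ((univ.filter fun ν : Fin (b ^ m) => ∀ j, z μ j ≤ z ν j ∧
      z ν j < min 1 (z μ j + e)).card : ℝ) := by
    have : 1 ≤ (univ.filter fun ν : Fin (b ^ m) => ∀ j, z μ j ≤ z ν j ∧
      z ν j < min 1 (z μ j + e)).card := by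
      rw [Nat.one_le_iff_ne_zero, ← Nat.pos_iff_ne_zero, Finset.card_pos]
      refine ⟨μ, ?_⟩
      rw [mem_filter]
      exact ⟨mem_univ _, fun j => ⟨le_refl _, lt_min (hz' j).2 (by linarith)⟩⟩
    exact_mod_cast this
  have h3 : ∏ j : Fin (D + 1), (min 1 (z μ j + e) - z μ j) ≤ e := by
    rw [Fin.prod_univ_succ]
    have ha : ∀ j, 0 ≤ min 1 (z μ j + e) - z μ j := fun j => by
      rw [sub_nonneg]
      exact le_min (hz' j).2.le (by linarith)
    have hb' : ∀ j, min 1 (z μ j + e) - z μ j ≤ e := fun j => by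
      have := min_le_right 1 (z μ j + e)
      linarith
    have hc' : ∀ j, min 1 (z μ j + e) - z μ j ≤ 1 := fun j => by
      have := min_le_left 1 (z μ j + e)
      linarith [(hz' j).1]
    have hc : ∏ j : Fin D, (min 1 (z μ j.succ + e) - z μ j.succ) ≤ 1 :=
      Finset.prod_le_one (fun j _ => ha _) (fun j _ => hc' _)
    calc _ ≤ e * 1 := mul_le_mul (hb' 0) hc (Finset.prod_nonneg fun j _ => ha _) he0.le
      _ = _ := by ring
  have h4 := (abs_le.mp h1).2
  have h5 : (b : ℝ) ^ m * ∏ j : Fin (D + 1), (min 1 (z μ j + e) - z μ j) ≤ 1 / 2 := by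
    calc _ ≤ (b : ℝ) ^ m * e := by gcongr
      _ = 1 / 2 := by rw [he]; field_simp
  linarith

set_option maxHeartbeats 4000000 in
/-- OS-7 -/
theorem t_Scr (h6 : StmProb) : StmScr := by
  intro D hD
  have hD1 : (1 : ℝ) ≤ D := by exact_mod_cast hD
  set C : ℕ := 16 * (D + 1) ^ 2 with hC
  have hCpos : 0 < C := by positivity
  set c : ℝ := 1 / 2 * (1 / (4 * C * D)) ^ D with hc
  have hCR : (0 : ℝ) < C := by exact_mod_cast hCpos
  have hcpos : 0 < c := by positivity
  refine ⟨c, 1 / (4 * ((D : ℝ) + 1)), hcpos, by positivity, ?_⟩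
  intro b m t g hb hnet
  have hbR : (2 : ℝ) ≤ b := by exact_mod_cast hb
  have ht0 : (0 : ℝ) ≤ t := Nat.cast_nonneg t
  by_cases hm : m < C * (t + 2)
  · -- trivial range
    have hempty : ∀ π : Scr b m D, ¬ ∃ (z : Fin (b ^ m) → Fin (D + 1) → ℝ) (R : ℝ),
        IsDg (toDg (scr1 π g)) z ∧ BdN z R ∧ R < c * ((m : ℝ) / ((t : ℝ) + 1)) ^ D := by
      rintro π ⟨z, R, hz, hR, hlt⟩
      have hdig : ∀ μ j i, toDg (scr1 π g) μ j i < b := by
        intro μ j i
        unfold toDg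
        split_ifs
        · exact Fin.is_lt _
        · omega
      have h1 := half_le (by omega) _ hdig z hz R hR
      have h2 : (m : ℝ) / ((t : ℝ) + 1) ≤ 2 * C := by
        rw [div_le_iff₀ (by positivity)]
        have : (m : ℝ) ≤ C * ((t : ℝ) + 2) := by exact_mod_cast hm.le
        nlinarith
      have h3 : c * ((m : ℝ) / ((t : ℝ) + 1)) ^ D ≤ 1 / 2 := by
        calc c * ((m : ℝ) / ((t : ℝ) + 1)) ^ D ≤ c * (2 * C) ^ D := by gcongr
          _ = 1 / 2 * ((1 / (4 * C * D)) * (2 * C)) ^ D := by rw [hc, mul_assoc, ← mul_pow]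
          _ ≤ 1 / 2 * 1 ^ D := by
              gcongr
              rw [div_mul_eq_mul_div, div_le_one (by positivity)]
              nlinarith
          _ = 1 / 2 := by simp
      linarith
    have : Nat.card {π : Scr b m D // ∃ (z : Fin (b ^ m) → Fin (D + 1) → ℝ) (R : ℝ),
        IsDg (toDg (scr1 π g)) z ∧ BdN z R ∧ R < c * ((m : ℝ) / ((t : ℝ) + 1)) ^ D} = 0 := by
      haveI : IsEmpty {π : Scr b m D // ∃ (z : Fin (b ^ m) → Fin (D + 1) → ℝ) (R : ℝ),
        IsDg (toDg (scr1 π g)) z ∧ BdN z R ∧ R < c * ((m : ℝ) / ((t : ℝ) + 1)) ^ D} :=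
        ⟨fun x => hempty x.1 x.2⟩
      exact Nat.card_of_isEmpty
    rw [this]
    simp only [Nat.cast_zero]
    positivity
  · rw [not_lt] at hm
    set k : ℕ := t + 2 with hk
    have hkpos : 0 < k := by omega
    set L : ℕ := m / (C * k) with hL
    have hCk : 0 < C * k := Nat.mul_pos hCpos hkpos
    have hL1 : 1 ≤ L := Nat.div_pos hm hCk
    have hLm : L * (C * k) ≤ m := Nat.div_mul_le_self m (C * k)
    have hLm' : m < (L + 1) * (C * k) := by
      have h2 := Nat.div_add_mod m (C * k)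
      have h3 := Nat.mod_lt m hCk
      calc m = C * k * (m / (C * k)) + m % (C * k) := h2.symm
        _ < C * k * (m / (C * k)) + C * k := by omega
        _ = _ := by rw [← hL]; ring
    set w : ℕ := k * (2 * L) with hw
    -- C w ≤ 2 m
    have hCw : 16 * (D + 1) ^ 2 * w ≤ 2 * m := by
      calc 16 * (D + 1) ^ 2 * w = 2 * (L * (C * k)) := by rw [hw, hC]; ring
        _ ≤ 2 * m := by omega
    have hCk2 : 16 * (D + 1) ^ 2 * k ≤ m := by rw [← hC]; exact hm
    set h : ℕ := m / (2 * (D + 1)) with hh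
    have hh1 : h * (2 * (D + 1)) ≤ m := Nat.div_mul_le_self _ _
    have hh2 : m < (h + 1) * (2 * (D + 1)) := by
      have h2 := Nat.div_add_mod m (2 * (D + 1))
      have h3 := Nat.mod_lt m (show 0 < 2 * (D + 1) by omega)
      calc m = 2 * (D + 1) * (m / (2 * (D + 1))) + m % (2 * (D + 1)) := h2.symm
        _ < 2 * (D + 1) * (m / (2 * (D + 1))) + 2 * (D + 1) := by omega
        _ = _ := by rw [← hh]; ring
    have hk2 : 2 ≤ k := by omega
    have hmbig : 32 * (D + 1) ^ 2 ≤ m := by nlinarith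
    -- real versions
    have rh1 : (h : ℝ) * (2 * ((D : ℝ) + 1)) ≤ m := by exact_mod_cast hh1
    have rh2 : (m : ℝ) < ((h : ℝ) + 1) * (2 * ((D : ℝ) + 1)) := by exact_mod_cast hh2
    have rCw : 16 * ((D : ℝ) + 1) ^ 2 * w ≤ 2 * m := by exact_mod_cast hCw
    have rCk : 16 * ((D : ℝ) + 1) ^ 2 * k ≤ m := by exact_mod_cast hCk2
    have rm : 32 * ((D : ℝ) + 1) ^ 2 ≤ m := by exact_mod_cast hmbig
    set A : ℝ := (m : ℝ) / ((D : ℝ) + 1) with hA
    have hDp : (0 : ℝ) < (D : ℝ) + 1 := by positivity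
    have hAm : A * ((D : ℝ) + 1) = m := by rw [hA]; field_simp
    have kh1 : (h : ℝ) ≤ A / 2 := by
      rw [hA, div_div, le_div_iff₀ (by positivity)]; linarith
    have kh2 : A / 2 < (h : ℝ) + 1 := by
      rw [hA, div_div, div_lt_iff₀ (by positivity)]; linarith
    have kw : ((D : ℝ) + 1) * w ≤ A / 8 := by
      rw [hA, div_div, le_div_iff₀ (by positivity)]
      nlinarith
    have kk' : ((D : ℝ) + 1) * k ≤ A / 16 := by
      rw [hA, div_div, le_div_iff₀ (by positivity)]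
      nlinarith
    have kA : 32 * ((D : ℝ) + 1) ≤ A := by
      rw [hA, le_div_iff₀ hDp]; nlinarith
    have hw0 : (0 : ℝ) ≤ w := Nat.cast_nonneg w
    have hk0 : (0 : ℝ) ≤ k := Nat.cast_nonneg k
    have hA0 : 0 ≤ A := by rw [hA]; positivity
    have rw1 : (w : ℝ) ≤ A / 16 := by
      have h1 : 2 * (w : ℝ) ≤ ((D : ℝ) + 1) * w := mul_le_mul_of_nonneg_right (by linarith) hw0
      linarith
    have rk1 : (k : ℝ) ≤ A / 32 := by
      have h1 : 2 * (k : ℝ) ≤ ((D : ℝ) + 1) * k := mul_le_mul_of_nonneg_right (by linarith) hk0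
      linarith
    have rAm : 2 * A ≤ m := by
      have h1 : A * 2 ≤ A * ((D : ℝ) + 1) := mul_le_mul_of_nonneg_left (by linarith) hA0
      rw [hAm] at h1; linarith
    have rt : (t : ℝ) + 2 = k := by rw [hk]; push_cast; ring
    have c1 : w ≤ h := by
      have : (w : ℝ) ≤ h := by linarith
      exact_mod_cast this
    have c2 : h + w + t ≤ m := by
      have : (h : ℝ) + w + t ≤ m := by linarith
      exact_mod_cast this
    have hkDL : k * (D * (2 * L - 1)) ≤ D * w := by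
      rw [hw]
      calc k * (D * (2 * L - 1)) ≤ k * (D * (2 * L)) := by
            apply Nat.mul_le_mul_left; apply Nat.mul_le_mul_left; omega
        _ = _ := by ring
    have c3 : D * h + k * (D * (2 * L - 1)) ≤ m + 2 := by
      have h1 : D * h + k * (D * (2 * L - 1)) ≤ D * h + D * w := by omega
      have h2 : (D : ℝ) * h + D * w ≤ m := by
        have i1 : (D : ℝ) * h ≤ ((D : ℝ) + 1) * (A / 2) :=
          mul_le_mul (by linarith) kh1 (Nat.cast_nonneg h) (by linarith)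
        have i2 : ((D : ℝ) + 1) * (A / 2) = m / 2 := by rw [← hAm]; ring
        have i3 : (D : ℝ) * w ≤ ((D : ℝ) + 1) * w := mul_le_mul_of_nonneg_right (by linarith) hw0
        linarith
      have h3 : D * h + D * w ≤ m := by exact_mod_cast h2
      omega
    obtain ⟨l0, hl0⟩ : ∃ l0, l0 + D * h + k * (D * (2 * L - 1)) = m + 2 :=
      ⟨m + 2 - (D * h + k * (D * (2 * L - 1))), by omega⟩
    have c4 : l0 + w + t ≤ m := by
      have h1 : w + t + 2 ≤ h := by
        have : (w : ℝ) + t + 2 ≤ h := by linarith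
        exact_mod_cast this
      have h2 : h ≤ D * h := Nat.le_mul_of_pos_left _ (by omega)
      omega
    obtain ⟨M, hM1, hM2⟩ := h6 b m D t L h l0 g hb hD hL1 hnet c1 c2 c4 hl0
    have hQ0 : (0 : ℝ) ≤ (Nat.card (Scr b m D) : ℝ) := Nat.cast_nonneg _
    -- inclusion of the bad sets
    have hcc : c * ((m : ℝ) / ((t : ℝ) + 1)) ^ D ≤
        (1 / 2 : ℝ) * (((2 * L - 1) / (2 * D) + 1 : ℕ) : ℝ) ^ D := by
      have hfl : (L : ℝ) / D ≤ (((2 * L - 1) / (2 * D) + 1 : ℕ) : ℝ) := by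
        rw [div_le_iff₀ (by positivity)]
        have h1 : 2 * L ≤ ((2 * L - 1) / (2 * D) + 1) * (2 * D) := by
          have h2 := Nat.div_add_mod (2 * L - 1) (2 * D)
          have h3 := Nat.mod_lt (2 * L - 1) (show 0 < 2 * D by omega)
          have h4 : ((2 * L - 1) / (2 * D) + 1) * (2 * D) =
            2 * D * ((2 * L - 1) / (2 * D)) + 2 * D := by ring
          rw [h4]; omega
        have h2 : (2 * (L : ℝ)) ≤ (((2 * L - 1) / (2 * D) + 1 : ℕ) : ℝ) * (2 * D) := by
          exact_mod_cast h1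
        linarith
      have hLr : (m : ℝ) / ((t : ℝ) + 1) ≤ 4 * C * L := by
        rw [div_le_iff₀ (by positivity)]
        have h1 : (m : ℝ) < ((L : ℝ) + 1) * (C * k) := by exact_mod_cast hLm'
        have h2 : (1 : ℝ) ≤ L := by exact_mod_cast hL1
        have h3 : (k : ℝ) ≤ 2 * ((t : ℝ) + 1) := by linarith
        have h4 : ((L : ℝ) + 1) * (C * k) ≤ (2 * L) * (C * (2 * ((t : ℝ) + 1))) := by gcongr; linarith
        linarith
      calc c * ((m : ℝ) / ((t : ℝ) + 1)) ^ D ≤ c * (4 * C * L) ^ D := by gcongr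
        _ = 1 / 2 * ((1 / (4 * C * D)) * (4 * C * L)) ^ D := by rw [hc, mul_assoc, ← mul_pow]
        _ = 1 / 2 * ((L : ℝ) / D) ^ D := by
            congr 2; field_simp
        _ ≤ _ := by gcongr
    have hincl : (Nat.card {π : Scr b m D // ∃ (z : Fin (b ^ m) → Fin (D + 1) → ℝ) (R : ℝ),
        IsDg (toDg (scr1 π g)) z ∧ BdN z R ∧ R < c * ((m : ℝ) / ((t : ℝ) + 1)) ^ D} : ℝ) ≤
        (Nat.card {π : Scr b m D // ∃ (z : Fin (b ^ m) → Fin (D + 1) → ℝ) (R : ℝ),
        IsDg (toDg (scr1 π g)) z ∧ BdN z R ∧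
          R < (1 / 2 : ℝ) * (((2 * L - 1) / (2 * D) + 1 : ℕ) : ℝ) ^ D} : ℝ) := by
      norm_cast
      refine Nat.card_le_card_of_injective
        (fun x => ⟨x.1, ?_⟩) (fun x y hxy => Subtype.ext (by simpa using hxy))
      obtain ⟨z, R, h1, h2, h3⟩ := x.2
      exact ⟨z, R, h1, h2, lt_of_lt_of_le h3 (by push_cast at hcc ⊢; exact hcc)⟩
    refine hincl.trans (hM2.trans ?_)
    gcongr
    -- exponent
    have hr0 : (0 : ℝ) < 1 / (b : ℝ) ^ (D * w) := by positivity
    have hr1 : 1 / (b : ℝ) ^ (D * w) ≤ 1 := by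
      rw [div_le_one (by positivity)]
      exact one_le_pow₀ (by linarith)
    have e1 : (1 - 1 / (b : ℝ) ^ (D * w)) ^ M ≤ Real.exp (-(M * (1 / (b : ℝ) ^ (D * w)))) := by
      have h1 : 1 - 1 / (b : ℝ) ^ (D * w) ≤ Real.exp (-(1 / (b : ℝ) ^ (D * w))) := by
        have := Real.add_one_le_exp (-(1 / (b : ℝ) ^ (D * w)))
        linarith
      calc (1 - 1 / (b : ℝ) ^ (D * w)) ^ M ≤ (Real.exp (-(1 / (b : ℝ) ^ (D * w)))) ^ M :=
            pow_le_pow_left₀ (by linarith) h1 M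
        _ = _ := by rw [← Real.exp_nat_mul]; ring_nf
    refine e1.trans ?_
    rw [Real.exp_le_exp, neg_le_neg_iff]
    -- b^(c' m) ≤ M / b^(D w)
    obtain ⟨E, hE⟩ : ∃ E, E + D + (D + 1) * w = h := by
      have : (D : ℝ) + ((D : ℝ) + 1) * w ≤ h := by nlinarith
      have : D + (D + 1) * w ≤ h := by exact_mod_cast this
      exact ⟨h - (D + (D + 1) * w), by omega⟩
    have hEr : (E : ℝ) + D + ((D : ℝ) + 1) * w = h := by exact_mod_cast hE
    have hEm : 1 / (4 * ((D : ℝ) + 1)) * m ≤ E := by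
      have h1 : 1 / (4 * ((D : ℝ) + 1)) * m = A / 4 := by rw [hA]; field_simp
      rw [h1]; nlinarith
    have hMb : (b : ℝ) ^ E ≤ M * (1 / (b : ℝ) ^ (D * w)) := by
      rw [mul_one_div, le_div_iff₀ (by positivity)]
      have h1 : D * (b ^ E * b ^ (D * w)) ≤ D * M := by
        refine le_trans ?_ hM1
        have h2 : h - w = D + (E + D * w) := by
          have : (D + 1) * w = D * w + w := by ring
          omega
        have h2' : h - (t + 2) * (2 * L) = D + (E + D * w) := h2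
        rw [h2', pow_add b D, pow_add b E]
        apply Nat.mul_le_mul_right
        calc D ≤ 2 ^ D := Nat.lt_two_pow_self.le
          _ ≤ b ^ D := Nat.pow_le_pow_left hb D
      have h2 : b ^ E * b ^ (D * w) ≤ M := Nat.le_of_mul_le_mul_left h1 (by omega)
      exact_mod_cast h2
    refine le_trans ?_ hMb
    rw [← Real.rpow_natCast]
    exact Real.rpow_le_rpow_of_exponent_le (by linarith) hEm

end Pool.Agent.Q71.OS
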